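import Pool.Agent.Lib.MP_b5021c_nt.IfaceF

/-!
# Board b5, row F3C
-/

namespace Pool.Agent.B5.H83

open Pool.Agent.B5

theorem le_satur {L : Type} [AddCommGroup L] (K : Submodule ℤ L) {a : L} (h : a ∈ K) :
    a ∈ satur K := ⟨1, one_ne_zero, by rwa [one_smul]⟩

theorem satur_sat {L : Type} [AddCommGroup L] {K : Submodule ℤ L} {n : ℤ} (hn : n ≠ 0) {a : L}
    (h : n • a ∈ satur K) : a ∈ satur K := by
  obtain ⟨m, hm, h⟩ := h
  exact ⟨m * n, mul_ne_zero hm hn, by rwa [mul_smul]⟩

theorem satur_le {L : Type} [AddCommGroup L] {K T : Submodule ℤ L} (h : K ≤ satur T) :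
    satur K ≤ satur T := by
  rintro a ⟨n, hn, ha⟩
  exact satur_sat hn (h ha)

theorem f3c (h1 : F1S) (h2 : F2S) (h3 : VcoS) : F3S := by
  intro O _ _ _ _ P L _ _ _ _ _ phi D S S' eta eta' hinj hbin hS hS' hnot
  have hSb : Bin phi S := hbin S hS.1
  have hSb' : Bin phi S' := hbin S' hS'.1
  have hdis : ∀ i, phi S' i = 0 ∨ phi S i = 0 :=
    h2 O P L phi D S' S eta hinj hbin hS' hS hnot
  obtain ⟨v1, v2, v3, v4, -⟩ := h3 O P L phi D S eta hinj hbin hSb hS.2.1
  have f1 := h1 O P L phi D S' eta' hinj hbin hSb' hS'.2.1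
  set W := US eta' S' D with hW
  apply satur_le
  rw [Submodule.span_le]
  intro a ha
  rw [SetLike.mem_coe]
  rcases ha with rfl | ha
  · exact le_satur _ (Submodule.mem_sup_right (Submodule.mem_span_singleton_self _))
  by_contra haT
  -- all members of the class are outside `W`
  have hout : ∀ k : ℤ, a + k • S ∉ W := by
    intro k hk
    apply haT
    apply le_satur
    have : a = (a + k • S) + (-k) • S := by rw [neg_smul]; abel
    rw [this]
    exact Submodule.add_mem_sup hk (Submodule.smul_mem _ _ (Submodule.mem_span_singleton_self _))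
  -- `S'` in `US eta S D`
  have key : ∀ b : L, vco eta S D b ≠ 0 → vco eta S D (b + S') ≠ 0 → False := by
    intro b hb hb'
    apply hnot
    have m1 : b ∈ US eta S D := le_satur _ (Submodule.subset_span (Or.inr hb))
    have m2 : b + S' ∈ US eta S D := le_satur _ (Submodule.subset_span (Or.inr hb'))
    have := (US eta S D).sub_mem m2 m1
    rwa [add_sub_cancel_left] at this
  -- the relation
  have rel : ∀ b : L, (∀ i, phi b i = 0 ∨ phi S' i = 0) → b ∉ W →
      D.coeff b + (eta' : RO O) * D.coeff (b + S') = 0 := fun b hb hbW => (f1 b hbW).2 hb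
  have eu : (eta' : RO O) ≠ 0 := eta'.ne_zero
  obtain ⟨k, hk⟩ := v2 a ha
  set g := a + k • S with hg
  have hgb : Bin phi g := hbin g hk
  have hgv : vco eta S D g ≠ 0 := by
    rw [hg, v1]
    exact mul_ne_zero (Units.ne_zero _) ha
  have hgout : ∀ m : ℤ, g + m • S ∉ W := by
    intro m
    have : g + m • S = a + (k + m) • S := by rw [hg, add_smul]; abel
    rw [this]; exact hout _
  -- `g` meets `S'` in nothing or everything
  have hgS' : (∀ i, phi g i = 0 ∨ phi S' i = 0) ∨ (∀ i, phi S' i = 1 → phi g i = 1) := by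
    by_contra hcon
    push Not at hcon
    obtain ⟨⟨i, hi1, hi2⟩, ⟨j, hj1, hj2⟩⟩ := hcon
    apply hk
    apply (f1 g (by simpa using hgout 0)).1
    · exact ⟨i, (hgb i).resolve_left hi1, (hSb' i).resolve_left hi2⟩
    · exact ⟨j, (hgb j).resolve_right hj2, hj1⟩
  -- main claim: for `c` with the same property, disjoint from `S` or meeting it properly
  have hWS' : S' ∈ W := le_satur _ (Submodule.subset_span (Or.inl rfl))
  -- reduction to a member `b` disjoint from `S'`
  obtain ⟨b, hb1, hb2, hb3⟩ : ∃ b : L, (∀ i, phi b i = 0 ∨ phi S' i = 0) ∧ (b = g ∨ b + S' = g) ∧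
      Bin phi b := by
    rcases hgS' with h | h
    · exact ⟨g, h, Or.inl rfl, hgb⟩
    · refine ⟨g - S', fun i => ?_, Or.inr (by abel), fun i => ?_⟩
      · rcases hSb' i with h' | h'
        · exact Or.inr h'
        · left
          rw [map_sub, Pi.sub_apply, h i h', h', sub_self]
      · rw [map_sub, Pi.sub_apply]
        rcases hSb' i with h' | h'
        · rw [h', sub_zero]; exact hgb i
        · left; rw [h i h', h', sub_self]
  have hb3' : Bin phi (b + S') := by
    intro i
    rw [map_add, Pi.add_apply]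
    rcases hb1 i with h | h
    · rw [h, zero_add]; exact hSb' i
    · rw [h, add_zero]; exact hb3 i
  have hbout : ∀ m : ℤ, b + m • S ∉ W := by
    intro m hm
    rcases hb2 with h | h
    · exact hgout m (h ▸ hm)
    · apply hgout m
      have : g + m • S = (b + m • S) + S' := by rw [← h]; abel
      rw [this]
      exact W.add_mem hm hWS'
  have hbS' : ∀ m : ℤ, ∀ i, phi (b + m • S) i = 0 ∨ phi S' i = 0 := by
    intro m i
    rcases hdis i with h | h
    · exact Or.inr h
    · rw [map_add, map_zsmul, Pi.add_apply, Pi.smul_apply, h, smul_zero, add_zero]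
      exact hb1 i
  have hvb : vco eta S D b ≠ 0 ∨ vco eta S D (b + S') ≠ 0 := by
    rcases hb2 with h | h
    · left; rwa [h]
    · right; rwa [h]
  -- value of `phi b` on `S`
  have hphi : ∀ i, phi S i = 1 → phi (b + S') i = phi b i := by
    intro i hi
    rw [map_add, Pi.add_apply]
    rcases hdis i with h | h
    · rw [h, add_zero]
    · rw [h] at hi; exact absurd hi (by norm_num)
  by_cases hcase : (∃ i, phi b i = 1 ∧ phi S i = 1) ∧ (∃ i, phi b i = 0 ∧ phi S i = 1)
  · obtain ⟨⟨i, hi1, hi2⟩, ⟨j, hj1, hj2⟩⟩ := hcase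
    have e1 : vco eta S D b = D.coeff b := v4 b hb3 ⟨i, hi1, hi2⟩ ⟨j, hj1, hj2⟩
    have e2 : vco eta S D (b + S') = D.coeff (b + S') :=
      v4 _ hb3' ⟨i, by rw [hphi i hi2]; exact ⟨hi1, hi2⟩⟩ ⟨j, by rw [hphi j hj2]; exact ⟨hj1, hj2⟩⟩
    have r := rel b hb1 (by simpa using hbout 0)
    rw [← e1, ← e2] at r
    rcases hvb with h | h
    · refine key b h ?_
      intro h0
      rw [h0, mul_zero, add_zero] at r
      exact h r
    · refine key b ?_ h
      intro h0
      rw [h0, zero_add] at r
      exact (mul_ne_zero eu h) r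
  · -- disjoint from `S`, or containing it
    obtain ⟨c, m, hc, hcS⟩ : ∃ (c : L) (m : ℤ), c = b + m • S ∧ (∀ i, phi c i = 0 ∨ phi S i = 0) := by
      rw [not_and_or] at hcase
      rcases hcase with h | h
      · refine ⟨b, 0, by simp, fun i => ?_⟩
        rcases hSb i with h' | h'
        · exact Or.inr h'
        · rcases hb3 i with h'' | h''
          · exact Or.inl h''
          · exact absurd ⟨i, h'', h'⟩ h
      · refine ⟨b + (-1 : ℤ) • S, -1, rfl, fun i => ?_⟩
        rcases hSb i with h' | h'
        · exact Or.inr h'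
        · left
          rcases hb3 i with h'' | h''
          · exact absurd ⟨i, h'', h'⟩ h
          · rw [map_add, map_zsmul, Pi.add_apply, Pi.smul_apply, h', h'']; norm_num
    have e1 : vco eta S D c = D.coeff c + (eta : RO O) * D.coeff (c + S) := v3 c hcS
    have e2 : vco eta S D (c + S') = D.coeff (c + S') + (eta : RO O) * D.coeff (c + S' + S) := by
      apply v3
      intro i
      rcases hdis i with h | h
      · rw [map_add, Pi.add_apply, h, add_zero]; exact hcS i
      · exact Or.inr h
    have r1 : D.coeff c + (eta' : RO O) * D.coeff (c + S') = 0 :=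
      rel c (by rw [hc]; exact hbS' m) (by rw [hc]; exact hbout m)
    have r2 : D.coeff (c + S) + (eta' : RO O) * D.coeff (c + S + S') = 0 := by
      have : c + S = b + (m + 1) • S := by rw [hc, add_smul, one_smul]; abel
      rw [this]
      exact rel _ (hbS' _) (hbout _)
    have r3 : vco eta S D c + (eta' : RO O) * vco eta S D (c + S') = 0 := by
      rw [e1, e2]
      have : c + S' + S = c + S + S' := by abel
      rw [this]
      linear_combination r1 + (eta : RO O) * r2
    have hvc : vco eta S D c ≠ 0 ∨ vco eta S D (c + S') ≠ 0 := by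
      rcases hvb with h | h
      · left; rw [hc, v1]; exact mul_ne_zero (Units.ne_zero _) h
      · right
        have : c + S' = (b + S') + m • S := by rw [hc]; abel
        rw [this, v1]; exact mul_ne_zero (Units.ne_zero _) h
    rcases hvc with h | h
    · refine key c h ?_
      intro h0
      rw [h0, mul_zero, add_zero] at r3
      exact h r3
    · refine key c ?_ h
      intro h0
      rw [h0, zero_add] at r3
      exact (mul_ne_zero eu h) r3

end Pool.Agent.B5.H83
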