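import Pool.Agent.Lib.MP_b5021c_nt.IfaceG

/-!
# Board b5, row I1A
-/

namespace Pool.Agent.B5.H83

open Pool.Agent.B5

section

variable {O : Type} [CommRing O] [Coef O] {L : Type} [AddCommGroup L]

theorem sl_zero (u : AddChar L Circle) (lam : L →+ ℤ) : sl u lam (0 : CA L) = 0 := by
  simp [sl]

theorem sl_add (u : AddChar L Circle) (lam : L →+ ℤ) (p q : CA L) :
    sl u lam (p + q) = sl u lam p + sl u lam q := by
  unfold sl
  rw [AddMonoidAlgebra.coeff_add]
  apply Finsupp.sum_add_index'
  · intro a; simp
  · intro a b c; rw [add_mul, map_add]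

theorem sl_single (u : AddChar L Circle) (lam : L →+ ℤ) (a : L) (c : ℂ) :
    sl u lam (AddMonoidAlgebra.single a c) =
      Polynomial.monomial (lam a).toNat (c * (u a : ℂ)) := by
  unfold sl
  rw [AddMonoidAlgebra.coeff_single]
  apply Finsupp.sum_single_index
  simp

theorem mev_zero {ι : Type} [Fintype ι] (u : AddChar L Circle) (mu : ι → L →+ ℤ) (t : ι → ℂ) :
    mev u mu t (0 : CA L) = 0 := by
  simp [mev]

theorem mev_add {ι : Type} [Fintype ι] (u : AddChar L Circle) (mu : ι → L →+ ℤ) (t : ι → ℂ)
    (p q : CA L) : mev u mu t (p + q) = mev u mu t p + mev u mu t q := by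
  unfold mev
  rw [AddMonoidAlgebra.coeff_add]
  apply Finsupp.sum_add_index'
  · intro a; simp
  · intro a b c; ring

theorem mev_single {ι : Type} [Fintype ι] (u : AddChar L Circle) (mu : ι → L →+ ℤ) (t : ι → ℂ)
    (a : L) (c : ℂ) : mev u mu t (AddMonoidAlgebra.single a c) =
      c * (u a : ℂ) * ∏ i, t i ^ (mu i a).toNat := by
  unfold mev
  rw [AddMonoidAlgebra.coeff_single]
  apply Finsupp.sum_single_index
  simp

theorem spec_single (z : Circle) (a : L) (q : RO O) :
    spec z (AddMonoidAlgebra.single a q : AO O L) = AddMonoidAlgebra.single a (evR z q) := by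
  simp [spec]

theorem res_zero {k : Type} [Semiring k] (K : Submodule ℤ L) :
    res K (0 : AddMonoidAlgebra k L) = 0 := by
  apply AddMonoidAlgebra.ext; ext a; simp [res_coeff]

theorem res_add {k : Type} [Semiring k] (K : Submodule ℤ L) (p q : AddMonoidAlgebra k L) :
    res K (p + q) = res K p + res K q := by
  apply AddMonoidAlgebra.ext; ext a
  rw [AddMonoidAlgebra.coeff_add, Finsupp.add_apply, res_coeff, res_coeff, res_coeff,
    AddMonoidAlgebra.coeff_add, Finsupp.add_apply]

theorem res_single_mem {k : Type} [Semiring k] (K : Submodule ℤ L) (a : L) (ha : a ∈ K) (q : k) :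
    res K (AddMonoidAlgebra.single a q) = AddMonoidAlgebra.single ⟨a, ha⟩ q := by
  classical
  apply AddMonoidAlgebra.ext; ext b
  rw [res_coeff, AddMonoidAlgebra.coeff_single, AddMonoidAlgebra.coeff_single, Finsupp.single_apply,
    Finsupp.single_apply]
  simp only [Subtype.ext_iff]

theorem res_single_not {k : Type} [Semiring k] (K : Submodule ℤ L) (a : L) (ha : a ∉ K) (q : k) :
    res K (AddMonoidAlgebra.single a q) = 0 := by
  classical
  apply AddMonoidAlgebra.ext; ext b
  rw [res_coeff, AddMonoidAlgebra.coeff_single, Finsupp.single_apply, if_neg]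
  · rfl
  · rintro rfl; exact ha b.2

omit [AddCommGroup L] in
/-- Additive functions are determined by the values on the monomials of the support. -/
theorem eq_of_single {k : Type} [Semiring k] {M : Type} [AddCommMonoid M]
    (f g : AddMonoidAlgebra k L →+ M) (D : AddMonoidAlgebra k L)
    (h : ∀ a, D.coeff a ≠ 0 → f (AddMonoidAlgebra.single a (D.coeff a)) =
      g (AddMonoidAlgebra.single a (D.coeff a))) : f D = g D := by
  rw [← AddMonoidAlgebra.sum_coeff_single D, map_finsuppSum, map_finsuppSum]
  apply Finsupp.sum_congr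
  intro a ha
  exact h a (Finsupp.mem_support_iff.mp ha)

/-- The identity between the two-parameter slice of `D` and the slices of `res D`, `cl D`. -/
theorem two_slice (k : L →+ ℤ) (S : L) (h : k S = 1) (eta : (RO O)ˣ) (lam : L →+ ℤ) (hS : lam S = 0)
    (z : Circle) (u : AddChar (Ker k) Circle) (D : AO O L)
    (hb : ∀ a ∈ supp D, k a = 0 ∨ k a = 1) (s y : ℂ) :
    mev (ι := Fin 2) (u.compAddMonoidHom (prj k S h)) ![lam, k] ![s, y] (spec z D) =
      (sl u (lam.comp (incl (Ker k))) (spec z (res (Ker k) D))).eval s +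
        y * ((evR z (eta : RO O))⁻¹ *
          ((sl u (lam.comp (incl (Ker k))) (spec z (cl k S h eta D))).eval s -
            (sl u (lam.comp (incl (Ker k))) (spec z (res (Ker k) D))).eval s)) := by
  let f : AO O L →+ ℂ :=
    { toFun := fun D => mev (ι := Fin 2) (u.compAddMonoidHom (prj k S h)) ![lam, k] ![s, y] (spec z D)
      map_zero' := by rw [map_zero, mev_zero]
      map_add' := fun p q => by rw [map_add, mev_add] }
  let g : AO O L →+ ℂ :=
    { toFun := fun D => (sl u (lam.comp (incl (Ker k))) (spec z (res (Ker k) D))).eval s +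
        y * ((evR z (eta : RO O))⁻¹ *
          ((sl u (lam.comp (incl (Ker k))) (spec z (cl k S h eta D))).eval s -
            (sl u (lam.comp (incl (Ker k))) (spec z (res (Ker k) D))).eval s))
      map_zero' := by rw [res_zero, map_zero, map_zero, sl_zero, map_zero, sl_zero]; simp
      map_add' := fun p q => by
        rw [res_add, map_add, sl_add, map_add, map_add, sl_add, Polynomial.eval_add,
          Polynomial.eval_add]
        ring }
  have he : evR z (eta : RO O) ≠ 0 := (eta.isUnit.map (evR z)).ne_zero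
  refine eq_of_single f g D (fun a ha => ?_)
  change mev _ _ _ (spec z (AddMonoidAlgebra.single a (D.coeff a))) = _ + _ * (_ * (_ - _))
  rw [spec_single, mev_single, Fin.prod_univ_two]
  simp only [Matrix.cons_val_zero, Matrix.cons_val_one, AddChar.compAddMonoidHom_apply]
  rw [cl_single, spec_single, sl_single]
  have hlam : (lam.comp (incl (Ker k))) (prj k S h a) = lam a := by
    rw [AddMonoidHom.comp_apply, incl_apply, prj_coe, map_sub, map_zsmul, hS, smul_zero, sub_zero]
  rw [hlam]
  rcases hb a ha with h0 | h1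
  · have hm : a ∈ Ker k := h0
    have hp : prj k S h a = ⟨a, hm⟩ := by
      apply Subtype.ext
      rw [prj_coe, h0, zero_smul, sub_zero]
    rw [res_single_mem _ _ hm, spec_single, sl_single, ← hp, hlam, h0]
    simp
  · have hm : a ∉ Ker k := by
      intro h2
      rw [mem_Ker, h1] at h2
      exact one_ne_zero h2
    rw [res_single_not _ _ hm, map_zero, sl_zero, h1]
    simp only [zpow_one, map_mul, Polynomial.eval_monomial, Polynomial.eval_zero, sub_zero,
      Int.toNat_one, pow_one, zero_add]
    field_simp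

theorem pos_nn {k : Type} [Semiring k] {lam : L →+ ℤ} {p : AddMonoidAlgebra k L} (h : Pos lam p) :
    Nn lam p := by
  intro a ha
  rcases eq_or_ne a 0 with rfl | h0
  · rw [map_zero]
  · exact (h a ha h0).le

/-- The lowest coefficient of a slice. -/
theorem sl_coeff_zero {lam : L →+ ℤ} {p : CA L} (h : Pos lam p) (u : AddChar L Circle) :
    (sl u lam p).coeff 0 = p.coeff 0 := by
  unfold sl
  rw [Finsupp.sum, Polynomial.finsetSum_coeff, Finset.sum_eq_single 0]
  · rw [map_zero, Int.toNat_zero, Polynomial.coeff_monomial, if_pos rfl, AddChar.map_zero_eq_one]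
    simp
  · intro a ha h0
    rw [Polynomial.coeff_monomial, if_neg]
    have := h a ha h0
    omega
  · intro h0
    rw [Finsupp.notMem_support_iff.mp h0]
    simp

theorem pos_spec {lam : L →+ ℤ} {G : AO O L} (h : Pos lam G) (z : Circle) : Pos lam (spec z G) := by
  intro a ha h0
  apply h a _ h0
  rw [Finsupp.mem_support_iff] at ha ⊢
  intro h1
  rw [spec_coeff, h1, map_zero] at ha
  exact ha rfl

end

theorem i1a (h1 : A5S) (h2 : MultiS) (h3 : StSpecS) (h5 : B2cS) (h6 : G0S) (h7 : EvRS) :
    I1aS := by
  intro O _ _ _ _ P L _ _ _ _ _ phi D S i0 eta h hcc lam hS hlam z hz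
  obtain ⟨g1, g2, g3, g4, g5, g6⟩ := h6 O P L phi D S i0 eta h hcc
  have hD0 : evR z (D.coeff 0) ≠ 0 := by
    intro h0
    apply hz
    have := (h5 O L D hcc.dd.st).2 S hcc.ray z
    rw [h0, norm_zero] at this
    have h1 : evR z (D.coeff S) = 0 := norm_le_zero_iff.mp this
    rw [map_add, map_mul, h0, h1, mul_zero, add_zero]
  have hst : StableC (spec z D) := (h3 O L D).1 hcc.dd.st z hD0
  set k := co phi i0 with hk
  set lam' := lam.comp (incl (Ker k)) with hlam'
  have hPV : Pos lam' (cl k S h eta D) := g6 lam hS hlam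
  have hbin : ∀ a ∈ supp D, k a = 0 ∨ k a = 1 := fun a ha => hcc.dd.bin a ha i0
  have hsup : ∀ a ∈ (spec z D).coeff.support, a ∈ supp D := by
    intro a ha h0
    rw [Finsupp.mem_support_iff, spec_coeff, h0, map_zero] at ha
    exact ha rfl
  have hn : ‖evR z (eta : RO O)‖ = 1 := (h7 O).2.1 z _ eta.isUnit
  have hPX : Pos lam' (res (Ker k) D) := by
    intro a ha h0
    rw [Finsupp.mem_support_iff, res_coeff] at ha
    apply hlam _ ha
    · exact fun h => h0 (Subtype.ext h)
    · intro h'
      have h2 : k (a : L) = 0 := a.2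
      rw [h', h] at h2
      exact one_ne_zero h2
  refine ⟨2 * (‖evR z (D.coeff 0)‖ / ‖evR z (D.coeff 0 + (eta : RO O) * D.coeff S)‖) + 2, ?_⟩
  intro u s hs
  set X := sl u lam' (spec z (res (Ker k) D)) with hX
  set V := sl u lam' (spec z (cl k S h eta D)) with hV
  set e := evR z (eta : RO O) with he
  have he0 : e ≠ 0 := by
    intro h0
    rw [h0, norm_zero] at hn
    exact zero_ne_one hn
  set Y : Polynomial ℂ := Polynomial.C e⁻¹ * (V - X) with hY
  have hYs : ∀ s : ℂ, Y.eval s = e⁻¹ * (V.eval s - X.eval s) := fun s => by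
    rw [hY, Polynomial.eval_mul, Polynomial.eval_C, Polynomial.eval_sub]
  have hVs : ∀ s : ℂ, X.eval s + e * Y.eval s = V.eval s := fun s => by
    rw [hYs, ← mul_assoc, mul_inv_cancel₀ he0]; ring
  have hne : ∀ s y : ℂ, ‖s‖ < 1 → ‖y‖ < 1 → X.eval s + y * Y.eval s ≠ 0 := by
    intro s y hs hy
    have := h2 L (spec z D) hst (Fin 2) ![lam, k] (by
        intro i a ha
        have ha' := hsup a ha
        fin_cases i
        · rcases eq_or_ne a 0 with rfl | h0
          · simp
          · rcases eq_or_ne a S with rfl | h1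
            · simpa using hS.ge
            · simpa using (hlam a ha' h0 h1).le
        · rcases hbin a ha' with h | h <;> simp [h])
      (by
        intro a ha h0
        have ha' := hsup a ha
        rw [Fin.sum_univ_two]
        have hk0 : 0 ≤ k a := by rcases hbin a ha' with h | h <;> simp [h]
        rcases eq_or_ne a S with rfl | h1
        · simp [hS, h]
        · have := hlam a ha' h0 h1
          simp only [Matrix.cons_val_zero, Matrix.cons_val_one]
          omega)
      (u.compAddMonoidHom (prj k S h)) ![s, y] (by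
        intro i
        fin_cases i
        · simpa using hs
        · simpa using hy)
    rw [two_slice k S h eta lam hS z u D hbin s y] at this
    rw [hYs]
    exact this
  have hle : ∀ s : ℂ, ‖s‖ < 1 → ‖Y.eval s‖ ≤ ‖X.eval s‖ := by
    intro s hs
    by_contra hcon
    push Not at hcon
    have hY0 : Y.eval s ≠ 0 := by
      intro h0
      rw [h0, norm_zero] at hcon
      exact absurd hcon (not_lt.mpr (norm_nonneg _))
    apply hne s (-(X.eval s) / Y.eval s) hs
    · rw [norm_div, norm_neg, div_lt_one (norm_pos_iff.mpr hY0)]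
      exact hcon
    · rw [div_mul_cancel₀ _ hY0, add_neg_cancel]
  have hV0 : evR z ((cl k S h eta D).coeff 0) ≠ 0 := by rw [g3]; exact hz
  have hVne : ∀ s : ℂ, ‖s‖ < 1 → X.eval s + e * Y.eval s ≠ 0 := by
    intro s hs
    rw [hVs]
    exact (h3 O (Ker k) (cl k S h eta D)).2.2 g1 lam' hPV z hV0 u s hs
  have hmain := h1 X Y e hn hle hVne s hs
  have hX0 : X.coeff 0 = evR z (D.coeff 0) := by
    rw [hX, sl_coeff_zero (pos_spec hPX z), spec_coeff, res_coeff]
    rfl
  have hXY0 : X.coeff 0 + e * Y.coeff 0 = evR z (D.coeff 0 + (eta : RO O) * D.coeff S) := by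
    have hv := hVs 0
    rw [← Polynomial.coeff_zero_eq_eval_zero, ← Polynomial.coeff_zero_eq_eval_zero,
      ← Polynomial.coeff_zero_eq_eval_zero] at hv
    rw [hv, hV, sl_coeff_zero (pos_spec hPV z), spec_coeff, g3]
  rw [hXY0, hX0, hVs] at hmain
  exact hmain

end Pool.Agent.B5.H83
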