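import Pool.Agent.Lib.MP_b5021c_nt.IfaceJ

/-!
# Board b5, row L2A
-/

namespace Pool.Agent.B5.H83

open Pool.Agent.B5

open Classical in
/-- The new marking. -/
noncomputable def phN {P : Type} {L : Type} [AddCommGroup L] (phi : L →+ (P → ℤ))
    (J : Finset P) (i : P) (lam : L →+ ℤ) : (Ker lam × ℤ) →+ (Option P → ℤ) where
  toFun x := fun o => o.elim x.2 (fun j => if j = i then 0 else
    phi (x.1 : L) j + if j ∈ J then x.2 else 0)
  map_zero' := by
    funext o
    rcases o with _ | j
    · rfl
    · simp
  map_add' x y := by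
    funext o
    rcases o with _ | j
    · rfl
    · simp only [Option.elim, Prod.fst_add, Prod.snd_add, Submodule.coe_add, map_add, Pi.add_apply]
      split_ifs <;> ring

theorem phN_none {P : Type} {L : Type} [AddCommGroup L] (phi : L →+ (P → ℤ))
    (J : Finset P) (i : P) (lam : L →+ ℤ) (x : Ker lam × ℤ) : phN phi J i lam x none = x.2 := rfl

theorem phN_self {P : Type} {L : Type} [AddCommGroup L] (phi : L →+ (P → ℤ))
    (J : Finset P) (i : P) (lam : L →+ ℤ) (x : Ker lam × ℤ) :
    phN phi J i lam x (some i) = 0 := by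
  simp [phN]

theorem phN_mem {P : Type} {L : Type} [AddCommGroup L] (phi : L →+ (P → ℤ))
    (J : Finset P) (i : P) (lam : L →+ ℤ) (x : Ker lam × ℤ) {j : P} (h : j ≠ i) (hj : j ∈ J) :
    phN phi J i lam x (some j) = phi (x.1 : L) j + x.2 := by
  simp [phN, h, hj]

theorem phN_not {P : Type} {L : Type} [AddCommGroup L] (phi : L →+ (P → ℤ))
    (J : Finset P) (i : P) (lam : L →+ ℤ) (x : Ker lam × ℤ) {j : P} (h : j ≠ i) (hj : j ∉ J) :
    phN phi J i lam x (some j) = phi (x.1 : L) j := by
  simp [phN, h, hj]

theorem l2a (h1 : D3S) (h2 : FacetS) (h3 : ComplIrrS) (h4 : ComplS) (h5 : RkS) : L2stepS := by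
  classical
  intro O _ _ _ _ P L _ _ _ _ _ phi I J G i hi hG htwo hcls
  obtain ⟨hG0, lam0, hpos0, -⟩ := hG.st
  -- the direction
  obtain ⟨e, he0, he⟩ : ∃ e : L, e ≠ 0 ∧ ∀ a : L, a ≠ 0 → (∀ j, j ≠ i → phi a j = 0) →
      ∃ m n : ℤ, m ≠ 0 ∧ n ≠ 0 ∧ m • a = n • e := by
    by_cases hex : ∃ e : L, e ≠ 0 ∧ ∀ j, j ≠ i → phi e j = 0
    · obtain ⟨e, he0, he⟩ := hex
      refine ⟨e, he0, fun a ha0 ha => ?_⟩
      have nz : ∀ b : L, b ≠ 0 → (∀ j, j ≠ i → phi b j = 0) → phi b i ≠ 0 := by
        intro b hb0 hb h0
        apply hb0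
        apply hG.inj
        rw [map_zero]
        funext j
        by_cases hj : j = i
        · rw [hj, h0]; rfl
        · rw [hb j hj]; rfl
      refine ⟨phi e i, phi a i, nz e he0 he, nz a ha0 ha, hG.inj ?_⟩
      funext j
      rw [map_zsmul, map_zsmul, Pi.smul_apply, Pi.smul_apply, smul_eq_mul, smul_eq_mul]
      by_cases hj : j = i
      · rw [hj, mul_comm]
      · rw [he j hj, ha j hj, mul_zero, mul_zero]
    · push Not at hex
      have : Nontrivial L := by
        by_contra hn
        rw [not_nontrivial_iff_subsingleton] at hn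
        have : Module.finrank ℤ L = 0 := Module.finrank_zero_of_subsingleton
        omega
      obtain ⟨e, he0⟩ := exists_ne (0 : L)
      refine ⟨e, he0, fun a ha0 ha => ?_⟩
      obtain ⟨j, hj, hj'⟩ := hex a ha0
      exact absurd (ha j hj) hj'
  -- the facet
  set Sf : Finset L := G.coeff.support.erase 0 with hSf
  have hSf' : insert (0 : L) (Sf : Set L) = supp G := by
    ext a
    simp only [hSf, Set.mem_insert_iff, Finset.mem_coe, Finset.mem_erase, Finsupp.mem_support_iff,
      supp, Set.mem_ofPred_eq]
    constructor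
    · rintro (rfl | h)
      · exact hG0
      · exact h.2
    · intro h
      by_cases h0 : a = 0
      · exact Or.inl h0
      · exact Or.inr ⟨h0, h⟩
  obtain ⟨r1, r2, r3, r4, r5, r6, r7, r8, r9, r10⟩ := h5 L L
  obtain ⟨lam, hl0, hle, hlr⟩ := h1 L Sf e ⟨lam0, fun a ha => hpos0 a (Finset.mem_of_mem_erase ha)
    (Finset.ne_of_mem_erase ha)⟩ (by rw [← r8, hSf', hG.spn]) he0
  have hlam0 : lam ≠ 0 := by
    rintro rfl
    exact hle rfl
  have hNn : Nn lam G := by
    intro a ha
    by_cases h0 : a = 0
    · rw [h0, map_zero]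
    · exact hl0 a (Finset.mem_erase.mpr ⟨h0, ha⟩)
  have hface : rk {a | a ∈ supp G ∧ lam a = 0} + 1 = Module.finrank ℤ L := by
    have : {a | a ∈ supp G ∧ lam a = 0} = insert 0 {a | a ∈ Sf ∧ lam a = 0} := by
      ext a
      rw [← hSf']
      simp only [Set.mem_insert_iff, Finset.mem_coe, Set.mem_ofPred_eq]
      constructor
      · rintro ⟨rfl | h, h'⟩
        · exact Or.inl rfl
        · exact Or.inr ⟨h, h'⟩
      · rintro (rfl | h)
        · exact ⟨Or.inl rfl, map_zero _⟩
        · exact ⟨Or.inr h.1, h.2⟩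
    rw [this, r8, hlr]
  obtain ⟨c, B, hc, hcB, hBp, hBs, hcop, hBw, hBr, hBc⟩ :=
    h2 O P L phi I J G lam hG hNn hlam0 hface htwo hcls
  obtain ⟨c1, c2, c3, c4, c5⟩ := h4 O (Ker lam) B hBs
  have hB0 : B ≠ 0 := by
    rintro rfl
    exact hBs.1 rfl
  have hirr := h3 O (Ker lam) B hB0 hcop
  have hk1 : Module.finrank ℤ (Ker lam) + 1 = Module.finrank ℤ L := r1 lam hlam0
  have hk2 : Module.finrank ℤ (Ker lam × ℤ) = Module.finrank ℤ (Ker lam) + 1 :=
    (h5 (Ker lam) L).2.2.2.2.2.2.2.2.2
  have hdisj : ∀ j ∈ J, j ∉ I := fun j hj hi => (Finset.disjoint_left.mp hG.dis hi hj)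
  have hiJ : i ∉ J := fun h => hdisj i h hi
  refine ⟨Ker lam × ℤ, inferInstance, inferInstance, inferInstance, phN phi J i lam, compl B, ?_,
    by rw [hk2, hk1], ?_⟩
  swap
  · rw [c3]; exact hBc
  refine ⟨?_, ?_, ?_, c1, c2, hirr, ?_⟩
  · -- injective
    rw [injective_iff_map_eq_zero]
    rintro ⟨a, k⟩ hx
    have hk : k = 0 := congrFun hx none
    subst hk
    have ha : ∀ j, j ≠ i → phi (a : L) j = 0 := by
      intro j hj
      have := congrFun hx (some j)
      by_cases hjJ : j ∈ J
      · rw [phN_mem _ _ _ _ _ hj hjJ] at this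
        simpa using this
      · rw [phN_not _ _ _ _ _ hj hjJ] at this
        exact this
    by_cases ha0 : (a : L) = 0
    · have : a = 0 := Subtype.ext ha0
      rw [this]; rfl
    · exfalso
      obtain ⟨m, n, hm, hn, hmn⟩ := he _ ha0 ha
      have h6 : lam (m • (a : L)) = lam (n • e) := by rw [hmn]
      rw [map_zsmul, map_zsmul, show lam (a : L) = 0 from a.2, smul_zero, smul_eq_mul] at h6
      exact (mul_ne_zero hn hle) h6.symm
  · -- disjoint
    rw [Finset.disjoint_left]
    intro o ho ho'
    rw [Finset.mem_map] at ho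
    obtain ⟨j, hj, rfl⟩ := ho
    rw [Finset.mem_insert, Finset.mem_map] at ho'
    rcases ho' with h | ⟨j', hj', h⟩
    · exact absurd h (by simp)
    · have : j' = j := by simpa using h
      subst this
      exact hdisj j' hj' (Finset.mem_of_mem_erase hj)
  · -- exponents
    intro x hx
    refine ⟨?_, ?_, ?_⟩
    · intro o ho
      rw [Finset.mem_insert, Finset.mem_map] at ho
      rcases ho with rfl | ⟨j, hj, rfl⟩
      · rw [phN_none]
        rcases c4 x hx with h | h
        · exact Or.inl h.1
        · exact Or.inr h.1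
      · have hji : j ≠ i := fun h => hiJ (h ▸ hj)
        change phN phi J i lam x (some j) = 0 ∨ phN phi J i lam x (some j) = 1
        rw [phN_mem _ _ _ _ _ hji hj]
        rcases c4 x hx with h | h
        · rw [h.1, add_zero]
          exact (hBw _ h.2).1 j hj
        · rw [h.1]
          have := (hBw _ h.2).1 j hj
          have e1 : phi ((-x.1 : Ker lam) : L) j = -phi (x.1 : L) j := by
            rw [Submodule.coe_neg, map_neg, Pi.neg_apply]
          rw [e1] at this
          omega
    · have hval : ∀ o ∈ (I.erase i).map Function.Embedding.some, ∃ j ∈ I, j ≠ i ∧ o = some j ∧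
          phN phi J i lam x o = phi (x.1 : L) j := by
        intro o ho
        rw [Finset.mem_map] at ho
        obtain ⟨j, hj, rfl⟩ := ho
        have hji := Finset.ne_of_mem_erase hj
        have hjI := Finset.mem_of_mem_erase hj
        exact ⟨j, hjI, hji, rfl, phN_not _ _ _ _ _ hji (fun h => hdisj j h hjI)⟩
      rcases c4 x hx with h | h
      · rcases (hBw _ h.2).2.1 with h' | h'
        · left
          intro o ho
          obtain ⟨j, hj, -, -, e⟩ := hval o ho
          rw [e]; exact h' j hj
        · right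
          intro o ho
          obtain ⟨j, hj, -, -, e⟩ := hval o ho
          rw [e]; exact h' j hj
      · have e1 : ∀ j, phi ((-x.1 : Ker lam) : L) j = -phi (x.1 : L) j := fun j => by
          rw [Submodule.coe_neg, map_neg, Pi.neg_apply]
        rcases (hBw _ h.2).2.1 with h' | h'
        · right
          intro o ho
          obtain ⟨j, hj, -, -, e⟩ := hval o ho
          have := h' j hj
          rw [e1] at this
          rw [e]; omega
        · left
          intro o ho
          obtain ⟨j, hj, -, -, e⟩ := hval o ho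
          have := h' j hj
          rw [e1] at this
          rw [e]; omega
    · intro o ho ho'
      rcases o with _ | j
      · exact absurd (Finset.mem_insert_self _ _) ho'
      · by_cases hji : j = i
        · rw [hji]; exact phN_self _ _ _ _ _
        · have hjJ : j ∉ J := by
            intro h
            apply ho'
            rw [Finset.mem_insert, Finset.mem_map]
            exact Or.inr ⟨j, h, rfl⟩
          have hjI : j ∉ I := by
            intro h
            apply ho
            rw [Finset.mem_map]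
            exact ⟨j, Finset.mem_erase.mpr ⟨hji, h⟩, rfl⟩
          rw [phN_not _ _ _ _ _ hji hjJ]
          rcases c4 x hx with h | h
          · exact (hBw _ h.2).2.2 j hjI hjJ
          · have := (hBw _ h.2).2.2 j hjI hjJ
            have e1 : phi ((-x.1 : Ker lam) : L) j = -phi (x.1 : L) j := by
              rw [Submodule.coe_neg, map_neg, Pi.neg_apply]
            rw [e1] at this
            omega
  · rw [c5, hBr, hk2, hk1]

end Pool.Agent.B5.H83
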